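import Pool.Agent.H34.GHK.GBK
import Pool.Agent.H68.GHK.Targets

/-!
Row GBH of the board ghk: the hybrid fourth moment at well spaced points, with the weights `1 / H_F`.
-/

set_option autoImplicit false

namespace Pool.Agent.H25.GHK

open MeasureTheory Pool.Agent.H34.GM Pool.Agent.H34.GZ Pool.Agent.H34.GU Pool.Agent.H34.GA
open Pool.Agent.H34.GZZ Pool.Agent.H68.GHK

theorem pf_GBH : T_ENA → T_HYZ → T_DYH → T_CRH → T_GBH := by
  intro hENA hHYZ hDYH hCRH m hm1 r ε hr hε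
  obtain ⟨e1, A, he1, hA, hfin⟩ := Pool.Agent.H34.GHK.gbk hENA hHYZ m hm1 ε hε
  obtain ⟨c0, C1, hc0, hC1, hD⟩ := hDYH m hm1 r e1 A hr he1 hA
  obtain ⟨c3, C3, hc3, hC3, hR⟩ := hCRH m hm1 r e1 hr he1
  obtain ⟨c', hc', hc'1, hc'0, hc'3⟩ : ∃ c' : ℝ, 0 < c' ∧ c' ≤ 1 / 2 ∧ c' ≤ c0 / 2 ∧ c' ≤ c3 / 2 :=
    ⟨min (1 / 2) (min (c0 / 2) (c3 / 2)), lt_min (by norm_num) (lt_min (by positivity)
      (by positivity)), min_le_left _ _, (min_le_right _ _).trans (min_le_left _ _),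
      (min_le_right _ _).trans (min_le_right _ _)⟩
  obtain ⟨C, hC, hf⟩ := hfin c' C1 C3 hc' hc'1 hC1 hC3
  refine ⟨C, hC, ?_⟩
  intro N _ T D hSys P hP1 ι _ _ F lam hF hOr
  have hP0 : 0 < P := by linarith
  have hδ0 : 0 < c' / P := by positivity
  have hδP : c' / P * P = c' := by field_simp
  have hδ2 : c' / P ≤ c' / P * P := le_mul_of_one_le_right hδ0.le hP1
  have hδ1 : c' / P ≤ 1 / 2 := by linarith
  have hδP2 : c' / P * (1 + P) ≤ 2 * c' := by linarith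
  have hH0 : ∀ i, 0 ≤ (Hn r D (F i))⁻¹ := fun i =>
    inv_nonneg.2 (setIntegral_nonneg_of_ae (Filter.Eventually.of_forall fun u => by positivity))
  have hfam : ∀ i, CusB m N T (F i) (lam i) ∧ Lip D (F i) P ∧ 0 ≤ P := fun i =>
    ⟨(hF i).1, (hF i).2, hP0.le⟩
  exact hf N T D hSys P hP1 ι F lam (fun i => (Hn r D (F i))⁻¹)
    (fun i => ⟨(hF i).1, (hF i).2, hOr.one i⟩) hH0 (c' / P) rfl
    (hR N T D hSys ι F lam (fun _ => P) hfam hOr (c' / P) hδ0 hδ1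
      (fun _ => hδP2.trans (by linarith)))
    (fun X hX1 hX2 τ => hD N T D hSys ι F lam (fun _ => P) hfam hOr (c' / P) hδ0 hδ1
      (fun _ => hδP2.trans (by linarith)) X hX1 hX2 τ)

end Pool.Agent.H25.GHK
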